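import Pool.Agent.H.MP_36132b_an.A

namespace Pool.Agent.Results.MP_36132b_an.NagelConverse
open Metric

def IsPI {n : ℕ} (K : Set (EuclideanSpace ℂ (Fin n))) : Prop :=
  ∀ f : EuclideanSpace ℂ (Fin n) → ℂ, ContinuousOn f K → (∃ x ∈ K, f x ≠ 0) →
    ∃ g : EuclideanSpace ℂ (Fin n) → ℂ, ContinuousOn g (closedBall 0 1) ∧
      DifferentiableOn ℂ g (ball 0 1) ∧ (∀ x ∈ K, g x = f x) ∧
      ∀ z ∈ closedBall (0 : EuclideanSpace ℂ (Fin n)) 1, z ∉ K → ∃ x ∈ K, ‖g z‖ < ‖f x‖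

theorem result (n : ℕ) (hn : 2 ≤ n) :
    ∃ K : Set (EuclideanSpace ℂ (Fin n)), IsCompact K ∧ K ⊆ sphere 0 1 ∧ ¬ IsPI K ∧
      ∀ (a b : ℝ) (φ φ' : ℝ → EuclideanSpace ℂ (Fin n)), a < b →
        (∀ t ∈ Set.Icc a b, HasDerivWithinAt φ (φ' t) (Set.Icc a b) t) →
        ContinuousOn φ' (Set.Icc a b) →
        (∀ t ∈ Set.Icc a b, φ t ∈ sphere (0 : EuclideanSpace ℂ (Fin n)) 1) →
        (∀ t ∈ Set.Icc a b, ∑ j, φ' t j * (starRingEnd ℂ) (φ t j) ≠ 0) →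
        MeasureTheory.volume {t ∈ Set.Icc a b | φ t ∈ K} = 0 := by
  obtain ⟨K, h1, h2, h3, -, h4⟩ :=
    H.MP_0c4bbf_an.main (E := EuclideanSpace ℂ (Fin n)) (by simp; omega)
  refine ⟨K, h1, h2, fun h => h3 ?_, fun a b φ φ' _ hd hc _ h0 =>
    H.MP_36132b_an.null h2 h4 hd hc (by simpa [PiLp.inner_apply] using h0)⟩
  rcases K.eq_empty_or_nonempty with rfl | ⟨x, hx⟩
  · exact ⟨1, continuousOn_const, differentiableOn_const _, by simp⟩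
  obtain ⟨g, g1, g2, g3, g4⟩ := h 1 continuousOn_const ⟨x, hx, one_ne_zero⟩
  refine ⟨fun z => g z - 1, g1.sub continuousOn_const, g2.sub_const _, Set.ext fun z =>
    ⟨fun hz => by_contra fun h => ?_, fun hz => ⟨sphere_subset_closedBall (h2 hz), by simp [g3 z hz]⟩⟩⟩
  obtain ⟨y, -, hy⟩ := g4 z hz.1 h
  simp [sub_eq_zero.1 hz.2] at hy

end Pool.Agent.Results.MP_36132b_an.NagelConverse
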